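import Pool.Agent.R877.RN.Stm

/-!
Project RN (MP_6ec3b3_gt), piece EL: the Euler-Lagrange equation (first variation).
-/

set_option autoImplicit false

namespace R877.RN.EL
open Matrix Filter Topology R877.RN

set_option backward.isDefEq.respectTransparency false in
open scoped Norms.Operator in
theorem hasDerivAt_entry {n : ℕ} (E : Mat n) (i j : Fin n) :
    HasDerivAt (fun s : ℝ => (NormedSpace.exp (s • E)) i j) (E i j) 0 := by
  have h := hasDerivAt_exp_smul_const (𝕂 := ℝ) E (0 : ℝ)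
  have h2 : HasDerivAt (fun s : ℝ =>
        (LinearMap.toContinuousLinearMap (Matrix.entryLinearMap ℝ ℝ i j)) (NormedSpace.exp (s • E)))
      ((LinearMap.toContinuousLinearMap (Matrix.entryLinearMap ℝ ℝ i j))
        (NormedSpace.exp ((0:ℝ) • E) * E)) 0 :=
    (LinearMap.toContinuousLinearMap
      (Matrix.entryLinearMap ℝ ℝ i j)).hasFDerivAt.comp_hasDerivAt (0:ℝ) h
  have h3 : NormedSpace.exp ((0:ℝ) • E) * E = E := by simp [NormedSpace.exp_zero]
  rw [h3] at h2
  exact h2

theorem s1 {n : ℕ} (a : Mat n) (ν : Br n) (i j k : Fin n) :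
    ∑ p, ∑ q, ∑ r, a k r * ν p q r * (1 : Mat n) p i * (1 : Mat n) q j
      = ∑ r, a k r * ν i j r := by
  simp [Matrix.one_apply, Finset.sum_ite_irrel]

theorem s2 {n : ℕ} (b : Mat n) (ν : Br n) (i j k : Fin n) :
    ∑ p, ∑ q, ∑ r, (1 : Mat n) k r * ν p q r * b p i * (1 : Mat n) q j
      = ∑ p, ν p j k * b p i := by
  simp [Matrix.one_apply, Finset.sum_ite_irrel]

theorem s3 {n : ℕ} (b : Mat n) (ν : Br n) (i j k : Fin n) :
    ∑ p, ∑ q, ∑ r, (1 : Mat n) k r * ν p q r * (1 : Mat n) p i * b q j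
      = ∑ q, ν i q k * b q j := by
  simp [Matrix.one_apply, Finset.sum_ite_irrel]

/-- derivative of the action on brackets -/
theorem deriv_act {n : ℕ} (E : Mat n) (ν : Br n) (i j k : Fin n) :
    HasDerivAt (fun s : ℝ => act (NormedSpace.exp (s • E)) ν i j k)
      (∑ r, E k r * ν i j r - ∑ p, ν p j k * E p i - ∑ q, ν i q k * E q j) 0 := by
  have hU : ∀ i j, HasDerivAt (fun s : ℝ => (NormedSpace.exp (s • E)) i j) (E i j) 0 :=
    fun i j => hasDerivAt_entry E i j
  have hV : ∀ i j, HasDerivAt (fun s : ℝ => (NormedSpace.exp (s • (-E))) i j) ((-E) i j) 0 :=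
    fun i j => hasDerivAt_entry (-E) i j
  have hinv : ∀ s : ℝ, (NormedSpace.exp (s • E))⁻¹ = NormedSpace.exp (s • (-E)) := by
    intro s
    rw [smul_neg, Matrix.exp_neg]
  have h1 : (fun s : ℝ => act (NormedSpace.exp (s • E)) ν i j k) = fun s : ℝ =>
      ∑ p, ∑ q, ∑ r, (NormedSpace.exp (s • E)) k r * ν p q r *
        (NormedSpace.exp (s • (-E))) p i * (NormedSpace.exp (s • (-E))) q j := by
    funext s
    simp only [act, hinv]
  rw [h1]
  have h2 := HasDerivAt.fun_sum (u := Finset.univ) fun p (_ : p ∈ Finset.univ) =>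
    HasDerivAt.fun_sum (u := Finset.univ) fun q (_ : q ∈ Finset.univ) =>
    HasDerivAt.fun_sum (u := Finset.univ) fun r (_ : r ∈ Finset.univ) =>
      (((hU k r).mul_const (ν p q r)).mul (hV p i)).mul (hV q j)
  refine h2.congr_deriv ?_
  have e0 : NormedSpace.exp ((0:ℝ) • E) = (1 : Mat n) := by simp [NormedSpace.exp_zero]
  have e1 : NormedSpace.exp ((0:ℝ) • (-E)) = (1 : Mat n) := by simp [NormedSpace.exp_zero]
  have e2 : ∀ p q r : Fin n,
      (E k r * ν p q r * (NormedSpace.exp ((0:ℝ) • (-E))) p i +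
        (NormedSpace.exp ((0:ℝ) • E)) k r * ν p q r * (-E) p i) *
          (NormedSpace.exp ((0:ℝ) • (-E))) q j +
        ((NormedSpace.exp ((0:ℝ) • E)) k r * ν p q r * (NormedSpace.exp ((0:ℝ) • (-E))) p i) *
          (-E) q j
      = E k r * ν p q r * (1 : Mat n) p i * (1 : Mat n) q j
        + (1 : Mat n) k r * ν p q r * (-E) p i * (1 : Mat n) q j
        + (1 : Mat n) k r * ν p q r * (1 : Mat n) p i * (-E) q j := by
    intro p q r
    rw [e0, e1]
    ring
  have e3 := s1 E ν i j k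
  have e4 := s2 (-E) ν i j k
  have e5 := s3 (-E) ν i j k
  calc _ = ∑ p, ∑ q, ∑ r, (E k r * ν p q r * (1 : Mat n) p i * (1 : Mat n) q j
        + (1 : Mat n) k r * ν p q r * (-E) p i * (1 : Mat n) q j
        + (1 : Mat n) k r * ν p q r * (1 : Mat n) p i * (-E) q j) :=
        Finset.sum_congr rfl fun p _ => Finset.sum_congr rfl fun q _ =>
          Finset.sum_congr rfl fun r _ => e2 p q r
    _ = _ := by
        simp only [Finset.sum_add_distrib]
        rw [e3, e4, e5]
        simp only [Matrix.neg_apply, mul_neg, Finset.sum_neg_distrib]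
        ring

/-- derivative of the conjugation -/
theorem deriv_conj {n : ℕ} (E N : Mat n) (i j : Fin n) :
    HasDerivAt (fun s : ℝ => (NormedSpace.exp (s • E) * N * (NormedSpace.exp (s • E))⁻¹) i j)
      ((E * N - N * E) i j) 0 := by
  have hU : ∀ i j, HasDerivAt (fun s : ℝ => (NormedSpace.exp (s • E)) i j) (E i j) 0 :=
    fun i j => hasDerivAt_entry E i j
  have hV : ∀ i j, HasDerivAt (fun s : ℝ => (NormedSpace.exp (s • (-E))) i j) ((-E) i j) 0 :=
    fun i j => hasDerivAt_entry (-E) i j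
  have hinv : ∀ s : ℝ, (NormedSpace.exp (s • E))⁻¹ = NormedSpace.exp (s • (-E)) := by
    intro s
    rw [smul_neg, Matrix.exp_neg]
  have h1 : (fun s : ℝ => (NormedSpace.exp (s • E) * N * (NormedSpace.exp (s • E))⁻¹) i j)
      = fun s : ℝ => ∑ q, (∑ p, (NormedSpace.exp (s • E)) i p * N p q) *
        (NormedSpace.exp (s • (-E))) q j := by
    funext s
    rw [hinv, Matrix.mul_apply]
    simp only [Matrix.mul_apply]
  rw [h1]
  have h2 := HasDerivAt.fun_sum (u := Finset.univ) fun q (_ : q ∈ Finset.univ) =>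
    (HasDerivAt.fun_sum (u := Finset.univ) fun p (_ : p ∈ Finset.univ) =>
      (hU i p).mul_const (N p q)).mul (hV q j)
  refine h2.congr_deriv ?_
  have e0 : NormedSpace.exp ((0:ℝ) • E) = (1 : Mat n) := by simp [NormedSpace.exp_zero]
  have e1 : NormedSpace.exp ((0:ℝ) • (-E)) = (1 : Mat n) := by simp [NormedSpace.exp_zero]
  rw [e0, e1, Matrix.sub_apply, Matrix.mul_apply, Matrix.mul_apply]
  simp [Matrix.one_apply, Finset.sum_add_distrib, sub_eq_add_neg]

theorem asym_act {n : ℕ} (c : Mat n) (μ : Br n) (h : Asym μ) : Asym (act c μ) := by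
  intro i j k
  simp only [act]
  rw [Finset.sum_comm, ← Finset.sum_neg_distrib]
  refine Finset.sum_congr rfl fun q _ => ?_
  rw [← Finset.sum_neg_distrib]
  refine Finset.sum_congr rfl fun p _ => ?_
  rw [← Finset.sum_neg_distrib]
  refine Finset.sum_congr rfl fun r _ => ?_
  rw [h p q r]
  ring

theorem rot3 {n : ℕ} (f : Fin n → Fin n → Fin n → ℝ) :
    ∑ a, ∑ k, ∑ b, f a k b = ∑ b, ∑ a, ∑ k, f a k b := by
  calc _ = ∑ a, ∑ b, ∑ k, f a k b := Finset.sum_congr rfl fun a _ => Finset.sum_comm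
    _ = _ := Finset.sum_comm

theorem rot4 {n : ℕ} (f : Fin n → Fin n → Fin n → Fin n → ℝ) :
    ∑ i, ∑ j, ∑ k, ∑ r, f i j k r = ∑ r, ∑ k, ∑ i, ∑ j, f i j k r := by
  calc _ = ∑ i, ∑ r, ∑ j, ∑ k, f i j k r :=
        Finset.sum_congr rfl fun i _ => rot3 (f i)
    _ = ∑ r, ∑ i, ∑ j, ∑ k, f i j k r := Finset.sum_comm
    _ = _ := Finset.sum_congr rfl fun r _ => rot3 fun i j k => f i j k r

/-- first term -/
theorem id1 {n : ℕ} (ν : Br n) (E : Mat n) (h : Asym ν) :
    (1/8 : ℝ) * ∑ i, ∑ j, ∑ k, 2 * ν i j k *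
      (∑ r, E k r * ν i j r - ∑ p, ν p j k * E p i - ∑ q, ν i q k * E q j)
    = (Mm ν * E).trace := by
  have a1 : ∑ i, ∑ j, ∑ k, ν i j k * ∑ q, ν i q k * E q j
      = ∑ i, ∑ j, ∑ k, ν i j k * ∑ p, ν p j k * E p i := by
    rw [Finset.sum_comm]
    refine Finset.sum_congr rfl fun j _ => Finset.sum_congr rfl fun i _ =>
      Finset.sum_congr rfl fun k _ => ?_
    rw [h i j k, neg_mul, ← mul_neg, ← Finset.sum_neg_distrib]
    congr 1
    refine Finset.sum_congr rfl fun q _ => ?_
    rw [h i q k]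
    ring
  have a2 : (Mm ν * E).trace = -(1/2) * ∑ i, ∑ j, ∑ p, ∑ k, ν i p k * ν j p k * E j i
      + (1/4) * ∑ i, ∑ j, ∑ p, ∑ q, ν p q i * ν p q j * E j i := by
    simp only [Matrix.trace, Matrix.diag_apply, Matrix.mul_apply, Mm, add_mul, Finset.sum_add_distrib,
      Finset.mul_sum, Finset.sum_mul]
    congr 1 <;>
    · refine Finset.sum_congr rfl fun i _ => Finset.sum_congr rfl fun j _ =>
        Finset.sum_congr rfl fun p _ => Finset.sum_congr rfl fun q _ => ?_
      ring
  have a3 : ∑ i, ∑ j, ∑ k, ν i j k * ∑ p, ν p j k * E p i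
      = ∑ i, ∑ j, ∑ p, ∑ k, ν i p k * ν j p k * E j i := by
    refine Finset.sum_congr rfl fun i _ => ?_
    simp only [Finset.mul_sum]
    rw [rot3]
    refine Finset.sum_congr rfl fun j _ => Finset.sum_congr rfl fun p _ =>
      Finset.sum_congr rfl fun k _ => ?_
    ring
  have a4 : ∑ i, ∑ j, ∑ k, ν i j k * ∑ r, E k r * ν i j r
      = ∑ i, ∑ j, ∑ p, ∑ q, ν p q i * ν p q j * E j i := by
    simp only [Finset.mul_sum]
    rw [rot4]
    refine Finset.sum_congr rfl fun r _ => Finset.sum_congr rfl fun k _ =>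
      Finset.sum_congr rfl fun i _ => Finset.sum_congr rfl fun j _ => ?_
    ring
  rw [a2, ← a3, ← a4]
  simp only [mul_sub, Finset.sum_sub_distrib, mul_assoc, ← Finset.mul_sum]
  rw [a1]
  ring

/-- second term -/
theorem id2 {n : ℕ} (N E : Mat n) :
    (1/4 : ℝ) * ∑ i, ∑ j, 2 * N i j * (E * N - N * E) i j
    = ((1/2 : ℝ) • com N * E).trace := by
  have h1 : ∀ A B : Mat n, ∑ i, ∑ j, A i j * B i j = (Aᵀ * B).trace := by
    intro A B
    simp only [Matrix.trace, Matrix.diag_apply, Matrix.mul_apply, Matrix.transpose_apply]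
    exact Finset.sum_comm
  have h2 : ∑ i, ∑ j, 2 * N i j * (E * N - N * E) i j = 2 * (Nᵀ * (E * N - N * E)).trace := by
    rw [← h1]
    simp only [mul_assoc, ← Finset.mul_sum]
  rw [h2, Matrix.smul_mul, Matrix.trace_smul, com, Matrix.mul_sub, Matrix.sub_mul,
    Matrix.trace_sub, Matrix.trace_sub, smul_eq_mul]
  have h3 : (Nᵀ * (E * N)).trace = (N * Nᵀ * E).trace := by
    rw [← Matrix.mul_assoc, Matrix.trace_mul_comm, ← Matrix.mul_assoc]
  have h4 : (Nᵀ * (N * E)).trace = (Nᵀ * N * E).trace := by rw [Matrix.mul_assoc]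
  rw [h3, h4]
  ring

/-- third term -/
theorem id3 {n : ℕ} (c E : Mat n) :
    (1/2 : ℝ) * ∑ i, ∑ j, 2 * c i j * (E * c) i j = (c * cᵀ * E).trace := by
  have h1 : ∀ A B : Mat n, ∑ i, ∑ j, A i j * B i j = (Aᵀ * B).trace := by
    intro A B
    simp only [Matrix.trace, Matrix.diag_apply, Matrix.mul_apply, Matrix.transpose_apply]
    exact Finset.sum_comm
  have h2 : ∑ i, ∑ j, 2 * c i j * (E * c) i j = 2 * (cᵀ * (E * c)).trace := by
    rw [← h1]
    simp only [mul_assoc, ← Finset.mul_sum]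
  rw [h2]
  have h3 : (cᵀ * (E * c)).trace = (c * cᵀ * E).trace := by
    rw [← Matrix.mul_assoc, Matrix.trace_mul_comm, ← Matrix.mul_assoc]
  rw [h3]
  ring

end R877.RN.EL

namespace R877.RN
open Matrix Filter Topology

/-- EL: the Euler-Lagrange equation -/
theorem p_EL (hCHV : P_CHV) (hAM : P_ACTMUL) : P_EL := by
  intro n μ N T d r c0 hμ hT hd hc0 hmin E hEt hES
  have hU : ∀ i j, HasDerivAt (fun s : ℝ => (NormedSpace.exp (s • E)) i j) (E i j) 0 :=
    fun i j => EL.hasDerivAt_entry E i j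
  have e0 : NormedSpace.exp ((0:ℝ) • E) = (1 : Mat n) := by simp [NormedSpace.exp_zero]
  have hUdet : ∀ s : ℝ, IsUnit (NormedSpace.exp (s • E)).det := fun s =>
    (Matrix.isUnit_iff_isUnit_det _).mp (Matrix.isUnit_exp _)
  -- commutation with `diagonal d`
  have hdiag : (diagonal (fun i => d i + r) : Mat n) = diagonal d + r • (1 : Mat n) := by
    ext i j
    by_cases hij : i = j
    · subst hij; simp
    · simp [hij]
  have hcomm : ∀ c : Mat n, diagonal (fun i => d i + r) * c = c * diagonal (fun i => d i + r) →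
      c * diagonal d = diagonal d * c := by
    intro c hc
    rw [hdiag, add_mul, mul_add, smul_mul_assoc, mul_smul_comm, one_mul, mul_one] at hc
    exact (add_right_cancel hc).symm
  have hcd : c0 * diagonal d = diagonal d * c0 := hcomm c0 (hc0.2 _ hd)
  have hEd : E * diagonal d = diagonal d * E := hcomm E (hES _ hd)
  -- the curve stays in the centralizer
  have hin : ∀ s : ℝ, InC T (NormedSpace.exp (s • E) * c0) := by
    intro s
    refine ⟨?_, ?_⟩
    · rw [Matrix.det_mul]
      exact (hUdet s).mul hc0.1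
    · intro S hS
      have h1 : Commute S (s • E) := by
        show S * (s • E) = (s • E) * S
        rw [mul_smul_comm, smul_mul_assoc, hES S hS]
      have h2 : Commute S (NormedSpace.exp (s • E)) := h1.exp_right
      have h3 : Commute S c0 := hc0.2 S hS
      exact (h2.mul_right h3).eq
  -- the function
  have hΦ : ∀ s : ℝ, Phi d μ N (NormedSpace.exp (s • E) * c0) =
      (1/8) * ∑ i, ∑ j, ∑ k, (act (NormedSpace.exp (s • E)) (act c0 μ) i j k)^2
      + (1/4) * ∑ i, ∑ j, ((NormedSpace.exp (s • E) * conj c0 N * (NormedSpace.exp (s • E))⁻¹) i j)^2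
      + (1/2) * ∑ i, ∑ j, ((NormedSpace.exp (s • E) * c0) i j)^2
      - (chi d c0 + s * (diagonal d * E).trace) := by
    intro s
    have h1 : conj (NormedSpace.exp (s • E) * c0) N
        = NormedSpace.exp (s • E) * conj c0 N * (NormedSpace.exp (s • E))⁻¹ := by
      simp only [conj, Matrix.mul_inv_rev, Matrix.mul_assoc]
    rw [Phi, hAM n _ c0 μ (hUdet s) hc0.1, h1, hCHV n d c0 E hc0.1 hcd hEd s]
  have hderiv : HasDerivAt (fun s : ℝ => Phi d μ N (NormedSpace.exp (s • E) * c0))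
      (((Mm (act c0 μ) + (1/2 : ℝ) • com (conj c0 N) + c0 * c0ᵀ - diagonal d) * E).trace) 0 := by
    have hf : (fun s : ℝ => Phi d μ N (NormedSpace.exp (s • E) * c0)) = fun s : ℝ =>
        (1/8) * ∑ i, ∑ j, ∑ k, (act (NormedSpace.exp (s • E)) (act c0 μ) i j k)^2
        + (1/4) * ∑ i, ∑ j,
            ((NormedSpace.exp (s • E) * conj c0 N * (NormedSpace.exp (s • E))⁻¹) i j)^2
        + (1/2) * ∑ i, ∑ j, ((NormedSpace.exp (s • E) * c0) i j)^2
        - (chi d c0 + s * (diagonal d * E).trace) := funext hΦ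
    rw [hf]
    have d1 := (HasDerivAt.fun_sum (u := Finset.univ) fun i (_ : i ∈ Finset.univ) =>
      HasDerivAt.fun_sum (u := Finset.univ) fun j (_ : j ∈ Finset.univ) =>
      HasDerivAt.fun_sum (u := Finset.univ) fun k (_ : k ∈ Finset.univ) =>
        (EL.deriv_act E (act c0 μ) i j k).fun_pow 2).const_mul (1/8 : ℝ)
    have d2 := (HasDerivAt.fun_sum (u := Finset.univ) fun i (_ : i ∈ Finset.univ) =>
      HasDerivAt.fun_sum (u := Finset.univ) fun j (_ : j ∈ Finset.univ) =>
        (EL.deriv_conj E (conj c0 N) i j).fun_pow 2).const_mul (1/4 : ℝ)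
    have hm : ∀ i j, HasDerivAt (fun s : ℝ => (NormedSpace.exp (s • E) * c0) i j)
        ((E * c0) i j) 0 := by
      intro i j
      have h1 : (fun s : ℝ => (NormedSpace.exp (s • E) * c0) i j)
          = fun s : ℝ => ∑ p, (NormedSpace.exp (s • E)) i p * c0 p j := by
        funext s
        rw [Matrix.mul_apply]
      rw [h1, Matrix.mul_apply]
      exact HasDerivAt.fun_sum fun p _ => (hU i p).mul_const (c0 p j)
    have d3 := (HasDerivAt.fun_sum (u := Finset.univ) fun i (_ : i ∈ Finset.univ) =>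
      HasDerivAt.fun_sum (u := Finset.univ) fun j (_ : j ∈ Finset.univ) =>
        (hm i j).fun_pow 2).const_mul (1/2 : ℝ)
    have d4 : HasDerivAt (fun s : ℝ => chi d c0 + s * (diagonal d * E).trace)
        ((diagonal d * E).trace) 0 := by
      have := ((hasDerivAt_id (0:ℝ)).mul_const ((diagonal d * E).trace)).const_add (chi d c0)
      simpa using this
    refine (((d1.add d2).add d3).sub d4).congr_deriv ?_
    have a0 : act (1 : Mat n) (act c0 μ) = act c0 μ := by
      funext i j k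
      simp [act, Matrix.one_apply, Finset.sum_ite_irrel]
    have t1 := EL.id1 (act c0 μ) E (EL.asym_act c0 μ hμ)
    have t2 := EL.id2 (conj c0 N) E
    have t3 := EL.id3 c0 E
    simp only [e0, a0, one_mul, inv_one, mul_one, Nat.cast_ofNat, Nat.add_one_sub_one, pow_one]
    rw [t1, t2, t3, sub_mul, add_mul, add_mul, Matrix.trace_sub, Matrix.trace_add, Matrix.trace_add]
  have hlm : IsLocalMin (fun s : ℝ => Phi d μ N (NormedSpace.exp (s • E) * c0)) 0 := by
    refine Filter.Eventually.of_forall fun s => ?_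
    have := hmin _ (hin s)
    simpa [e0] using this
  exact hlm.hasDerivAt_eq_zero hderiv

end R877.RN
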